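import Mathlib
set_option autoImplicit false

/-!
# A two-sided Bezout domain that is not an RD ring

Let `K = ℚ(T)`, let `σ` be the automorphism `T ↦ 1/T` of `K` and let `O = ℚ[T]`. The ring is
`R = O + x K[[x; σ]]`, the skew power series `a₀ + x a₁ + x² a₂ + ...` with `a x = x σ(a)` and `a₀ ∈ O`. Since `σ` has
order two it is realised by the matrices `!![p, X σ(q); q, σ(p)]` over `K[[X]]`, `X = x²`.

* `R` is a domain and any two elements are comparable, up to a factor from `K`, for divisibility in `K[[x; σ]]`; as `O` is a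
  principal ideal domain with quotient field `K`, the ring `R` is Bezout on both sides.
* Let `f = 1/(T-1)`, `A = !![1, f; 0, 1]` and `M = R² / x A R²`. Look at the canonical map onto `M` from the direct sum of all
  cyclically presented modules `R / r R` that map to `M`. Its kernel is relatively divisible. If it were pure, then the identity of
  `M` would factor through a finite sum of modules `R / r R`; comparing coefficients at `x⁰` and `x¹` this gives matrices `α β` of rank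
  one over `O` with sum `1` such that `A⁻¹ σ(α β) A` is a matrix over `O`. Because `O ∩ σ(O) = ℚ` and `f` is not in `O + σ(O)`, the
  entry `(0,0)` of each of them vanishes (`key`), a contradiction.

In geometric terms, `A` glues two affine lines (`O` and `σ(O)`) to a nonsplit extension of two trivial line bundles on the
projective line with doubled points.
-/

namespace Pool.Agent.BezRD

open Matrix PowerSeries

section ring
variable {K : Type} [Field K] (σ : K →+* K) (hσ : ∀ a, σ (σ a) = a) (O : Subring K)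

/-- coefficientwise action -/
noncomputable abbrev sg : PowerSeries K →+* PowerSeries K := PowerSeries.map σ

/-- the matrix of `p + x q` -/
noncomputable def mk (p q : PowerSeries K) : Matrix (Fin 2) (Fin 2) (PowerSeries K) :=
  !![p, X * sg σ q; q, sg σ p]

include hσ in
theorem sg_sg (p : PowerSeries K) : sg σ (sg σ p) = p := by
  ext n
  simp [sg, hσ]

include hσ in
theorem mk_mul (p q p' q' : PowerSeries K) :
    mk σ p q * mk σ p' q' = mk σ (p * p' + X * sg σ q * q') (q * p' + sg σ p * q') := by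
  have hX : sg σ X = X := PowerSeries.map_X _
  ext i j : 1
  fin_cases i <;> fin_cases j <;>
    simp only [mk, Matrix.mul_apply, Fin.sum_univ_two, Fin.zero_eta, Fin.mk_one, of_apply, cons_val', cons_val_zero,
      cons_val_one, cons_val_fin_one, empty_val', map_add, map_mul, sg_sg σ hσ, hX] <;> ring_nf

theorem mk_add (p q p' q' : PowerSeries K) :
    mk σ p q + mk σ p' q' = mk σ (p + p') (q + q') := by
  ext i j : 1
  fin_cases i <;> fin_cases j <;> simp [mk, mul_add]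

theorem mk_neg (p q : PowerSeries K) : - mk σ p q = mk σ (-p) (-q) := by
  ext i j : 1
  fin_cases i <;> fin_cases j <;> simp [mk]

theorem mk_one : mk σ 1 0 = 1 := by
  ext i j : 1
  fin_cases i <;> fin_cases j <;> simp [mk]

theorem mk_zero : mk σ 0 0 = 0 := by
  ext i j : 1
  fin_cases i <;> fin_cases j <;> simp [mk]

theorem mk_inj {p q p' q' : PowerSeries K} (h : mk σ p q = mk σ p' q') : p = p' ∧ q = q' := by
  have h1 := congr_fun (congr_fun h 0) 0
  have h2 := congr_fun (congr_fun h 1) 0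
  simp [mk] at h1 h2
  exact ⟨h1, h2⟩

/-- the ring of all `p + x q` with the constant coefficient of `p` in `O` -/
def RO : Subring (Matrix (Fin 2) (Fin 2) (PowerSeries K)) where
  carrier := {M | ∃ p q, constantCoeff p ∈ O ∧ M = mk σ p q}
  mul_mem' := by
    rintro _ _ ⟨p, q, hp, rfl⟩ ⟨p', q', hp', rfl⟩
    refine ⟨_, _, ?_, mk_mul σ hσ p q p' q'⟩
    simp only [map_add, map_mul, constantCoeff_X, zero_mul, add_zero]
    exact O.mul_mem hp hp'
  one_mem' := ⟨1, 0, by simpa using O.one_mem, (mk_one σ).symm⟩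
  add_mem' := by
    rintro _ _ ⟨p, q, hp, rfl⟩ ⟨p', q', hp', rfl⟩
    refine ⟨_, _, ?_, mk_add σ p q p' q'⟩
    rw [map_add]
    exact O.add_mem hp hp'
  zero_mem' := ⟨0, 0, by simpa using O.zero_mem, (mk_zero σ).symm⟩
  neg_mem' := by
    rintro _ ⟨p, q, hp, rfl⟩
    refine ⟨_, _, ?_, mk_neg σ p q⟩
    rw [map_neg]
    exact O.neg_mem hp

/-- the element `p + x q` of the ring -/
noncomputable def el (p q : PowerSeries K) (hp : constantCoeff p ∈ O) : RO σ hσ O :=
  ⟨mk σ p q, p, q, hp, rfl⟩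

/-- the `p`-part -/
noncomputable def pp (a : RO σ hσ O) : PowerSeries K := a.1 0 0
/-- the `q`-part -/
noncomputable def qq (a : RO σ hσ O) : PowerSeries K := a.1 1 0

theorem pq (a : RO σ hσ O) : a.1 = mk σ (pp σ hσ O a) (qq σ hσ O a) := by
  obtain ⟨_, p, q, hp, rfl⟩ := a
  rfl

theorem pp_mem (a : RO σ hσ O) : constantCoeff (pp σ hσ O a) ∈ O := by
  obtain ⟨_, p, q, hp, rfl⟩ := a
  exact hp

/-! ### factorisation over the big ring -/

/-- the element `x` -/
noncomputable def xx : Matrix (Fin 2) (Fin 2) (PowerSeries K) := mk σ 0 1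

include hσ in
theorem xx_mul (p q : PowerSeries K) : xx σ * mk σ p q = mk σ (X * q) p := by
  rw [xx, mk_mul σ hσ]
  simp

include hσ in
theorem mul_xx (p q : PowerSeries K) : mk σ p q * xx σ = mk σ (X * sg σ q) (sg σ p) := by
  rw [xx, mk_mul σ hσ]
  simp

theorem det_mk (p q : PowerSeries K) : (mk σ p q).det = p * sg σ p - X * sg σ q * q := by
  rw [Matrix.det_fin_two]
  simp [mk]

/-- units of the big ring -/
def IsU (M : Matrix (Fin 2) (Fin 2) (PowerSeries K)) : Prop :=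
  ∃ p q, M = mk σ p q ∧ constantCoeff p ≠ 0

include hσ in
theorem IsU.inv {M : Matrix (Fin 2) (Fin 2) (PowerSeries K)} (h : IsU σ M) :
    ∃ p q, M * mk σ p q = 1 ∧ mk σ p q * M = 1 := by
  obtain ⟨p, q, rfl, hp⟩ := h
  set d := p * sg σ p - X * sg σ q * q with hd
  have hd0 : constantCoeff d ≠ 0 := by
    rw [hd]
    simp only [map_sub, map_mul, constantCoeff_X, zero_mul, sub_zero]
    refine mul_ne_zero hp ?_
    have : constantCoeff (sg σ p) = σ (constantCoeff p) := by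
      rw [← coeff_zero_eq_constantCoeff_apply, ← coeff_zero_eq_constantCoeff_apply]
      simp [sg]
    rw [this]
    exact (map_ne_zero σ).mpr hp
  have h1 : d * d⁻¹ = 1 := PowerSeries.mul_inv_cancel d hd0
  have e1 : mk σ p q * mk σ (sg σ p) (-q) = mk σ d 0 := by
    rw [mk_mul σ hσ, hd]
    congr 1 <;> ring
  have e2 : mk σ (sg σ p) (-q) * mk σ p q = mk σ d 0 := by
    rw [mk_mul σ hσ, hd, sg_sg σ hσ, map_neg]
    congr 1 <;> ring
  have e3 : mk σ p q * (mk σ (sg σ p) (-q) * mk σ d⁻¹ 0) = 1 := by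
    rw [← Matrix.mul_assoc, e1, mk_mul σ hσ, ← mk_one σ, h1]
    congr 1 <;> simp
  have e4 : (mk σ d⁻¹ 0 * mk σ (sg σ p) (-q)) * mk σ p q = 1 := by
    rw [Matrix.mul_assoc, e2, mk_mul σ hσ, ← mk_one σ, mul_comm d⁻¹ d, h1]
    congr 1 <;> simp
  have e5 : mk σ d⁻¹ 0 * mk σ (sg σ p) (-q) = mk σ (sg σ p) (-q) * mk σ d⁻¹ 0 :=
    left_inv_eq_right_inv e4 e3
  rw [e5] at e4
  rw [mk_mul σ hσ] at e3 e4
  exact ⟨_, _, e3, e4⟩

include hσ in
/-- every nonzero element is a power of `x` times a unit, on both sides -/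
theorem exists_fac (N : ℕ) : ∀ p q : PowerSeries K,
    ((∃ i, coeff i p ≠ 0 ∧ 2 * i ≤ N) ∨ (∃ i, coeff i q ≠ 0 ∧ 2 * i + 1 ≤ N)) →
    ∃ n U, IsU σ U ∧ mk σ p q = xx σ ^ n * U := by
  induction N with
  | zero =>
    intro p q h
    rcases h with ⟨i, hi, hN⟩ | ⟨i, hi, hN⟩
    · have : i = 0 := by omega
      subst this
      refine ⟨0, mk σ p q, ⟨p, q, rfl, ?_⟩, by simp⟩
      rwa [coeff_zero_eq_constantCoeff_apply] at hi
    · omega
  | succ N ih =>
    intro p q h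
    by_cases hp : constantCoeff p = 0
    · obtain ⟨p1, rfl⟩ := X_dvd_iff.mpr hp
      obtain ⟨n, U, hU, he⟩ := ih q p1 (by
        rcases h with ⟨i, hi, hN⟩ | ⟨i, hi, hN⟩
        · rcases i with _ | i
          · simp at hi
          · rw [coeff_succ_X_mul] at hi
            exact Or.inr ⟨i, hi, by omega⟩
        · exact Or.inl ⟨i, hi, by omega⟩)
      refine ⟨n + 1, U, hU, ?_⟩
      rw [pow_succ', Matrix.mul_assoc, ← he, xx_mul σ hσ]
    · exact ⟨0, mk σ p q, ⟨p, q, rfl, hp⟩, by simp⟩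

include hσ in
theorem exists_fac' (N : ℕ) : ∀ p q : PowerSeries K,
    ((∃ i, coeff i p ≠ 0 ∧ 2 * i ≤ N) ∨ (∃ i, coeff i q ≠ 0 ∧ 2 * i + 1 ≤ N)) →
    ∃ n U, IsU σ U ∧ mk σ p q = U * xx σ ^ n := by
  induction N with
  | zero =>
    intro p q h
    rcases h with ⟨i, hi, hN⟩ | ⟨i, hi, hN⟩
    · have : i = 0 := by omega
      subst this
      refine ⟨0, mk σ p q, ⟨p, q, rfl, ?_⟩, by simp⟩
      rwa [coeff_zero_eq_constantCoeff_apply] at hi
    · omega
  | succ N ih =>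
    intro p q h
    by_cases hp : constantCoeff p = 0
    · obtain ⟨p1, rfl⟩ := X_dvd_iff.mpr hp
      have hc : ∀ i (f : PowerSeries K), coeff i f ≠ 0 → coeff i (sg σ f) ≠ 0 := by
        intro i f hf
        simp only [sg, coeff_map]
        exact (map_ne_zero σ).mpr hf
      obtain ⟨n, U, hU, he⟩ := ih (sg σ q) (sg σ p1) (by
        rcases h with ⟨i, hi, hN⟩ | ⟨i, hi, hN⟩
        · rcases i with _ | i
          · simp at hi
          · rw [coeff_succ_X_mul] at hi
            exact Or.inr ⟨i, hc _ _ hi, by omega⟩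
        · exact Or.inl ⟨i, hc _ _ hi, by omega⟩)
      refine ⟨n + 1, U, hU, ?_⟩
      rw [pow_succ, ← Matrix.mul_assoc, ← he, mul_xx σ hσ, sg_sg σ hσ, sg_sg σ hσ]
    · exact ⟨0, mk σ p q, ⟨p, q, rfl, hp⟩, by simp⟩

theorem fac_of_ne {p q : PowerSeries K} (h : mk σ p q ≠ 0) : ∃ N : ℕ,
    ((∃ i, coeff i p ≠ 0 ∧ 2 * i ≤ N) ∨ (∃ i, coeff i q ≠ 0 ∧ 2 * i + 1 ≤ N)) := by
  by_contra hcon
  push Not at hcon
  apply h
  have h1 : p = 0 := by
    ext i
    by_contra hi
    have := (hcon (2 * i)).1 i (by simpa using hi)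
    omega
  have h2 : q = 0 := by
    ext i
    by_contra hi
    have := (hcon (2 * i + 1)).2 i (by simpa using hi)
    omega
  rw [h1, h2, mk_zero]

include hσ in
theorem det_ne_zero {p q : PowerSeries K} (h : mk σ p q ≠ 0) : (mk σ p q).det ≠ 0 := by
  obtain ⟨N, hN⟩ := fac_of_ne σ h
  obtain ⟨n, U, hU, he⟩ := exists_fac σ hσ N p q hN
  obtain ⟨p', q', h1, -⟩ := hU.inv σ hσ
  rw [he, Matrix.det_mul, Matrix.det_pow]
  have h2 : U.det ≠ 0 := by
    intro h0
    have := congrArg Matrix.det h1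
    rw [Matrix.det_mul, h0, zero_mul, Matrix.det_one] at this
    exact zero_ne_one this
  have h3 : (xx σ).det ≠ 0 := by
    rw [xx, det_mk]
    simp [X_ne_zero]
  exact mul_ne_zero (pow_ne_zero _ h3) h2

include hσ in
/-- the chain property, right -/
theorem chain_right (p q p' q' : PowerSeries K) :
    (∃ s t, mk σ p' q' = mk σ p q * mk σ s t) ∨ (∃ s t, mk σ p q = mk σ p' q' * mk σ s t) := by
  by_cases h : mk σ p q = 0
  · right
    refine ⟨0, 0, ?_⟩
    rw [h, mk_zero, Matrix.mul_zero]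
  by_cases h' : mk σ p' q' = 0
  · left
    refine ⟨0, 0, ?_⟩
    rw [h', mk_zero, Matrix.mul_zero]
  obtain ⟨N, hN⟩ := fac_of_ne σ h
  obtain ⟨n, U, hU, he⟩ := exists_fac σ hσ N p q hN
  obtain ⟨N', hN'⟩ := fac_of_ne σ h'
  obtain ⟨n', U', hU', he'⟩ := exists_fac σ hσ N' p' q' hN'
  have hxp : ∀ k : ℕ, ∃ s t, xx σ ^ k = mk σ s t := by
    intro k
    induction k with
    | zero => exact ⟨1, 0, by rw [pow_zero, mk_one]⟩
    | succ k ih =>
      obtain ⟨s, t, hk⟩ := ih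
      exact ⟨_, _, by rw [pow_succ, hk, mul_xx σ hσ]⟩
  have key : ∀ (n n' : ℕ) (U U' : Matrix (Fin 2) (Fin 2) (PowerSeries K)), IsU σ U → IsU σ U' →
      n ≤ n' → ∃ s t, xx σ ^ n' * U' = (xx σ ^ n * U) * mk σ s t := by
    intro n n' U U' hU hU' hn
    obtain ⟨a, b, h1, h2⟩ := hU.inv σ hσ
    obtain ⟨c, d, rfl, -⟩ := hU'
    obtain ⟨s, t, hk⟩ := hxp (n' - n)
    obtain ⟨s', t', hk'⟩ : ∃ s' t', mk σ a b * mk σ s t * mk σ c d = mk σ s' t' := by
      rw [mk_mul σ hσ, mk_mul σ hσ]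
      exact ⟨_, _, rfl⟩
    refine ⟨s', t', ?_⟩
    rw [← hk', ← hk]
    have : xx σ ^ n * U * (mk σ a b * xx σ ^ (n' - n) * mk σ c d) =
        xx σ ^ n * (U * mk σ a b) * xx σ ^ (n' - n) * mk σ c d := by
      simp only [Matrix.mul_assoc]
    rw [this, h1, Matrix.mul_one, ← pow_add, Nat.add_sub_cancel' hn]
  rcases le_total n n' with hn | hn
  · left
    rw [he, he']
    exact key n n' U U' hU hU' hn
  · right
    rw [he, he']
    exact key n' n U' U hU' hU hn

include hσ in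
/-- the chain property, left -/
theorem chain_left (p q p' q' : PowerSeries K) :
    (∃ s t, mk σ p' q' = mk σ s t * mk σ p q) ∨ (∃ s t, mk σ p q = mk σ s t * mk σ p' q') := by
  by_cases h : mk σ p q = 0
  · right
    refine ⟨0, 0, ?_⟩
    rw [h, mk_zero, Matrix.zero_mul]
  by_cases h' : mk σ p' q' = 0
  · left
    refine ⟨0, 0, ?_⟩
    rw [h', mk_zero, Matrix.zero_mul]
  obtain ⟨N, hN⟩ := fac_of_ne σ h
  obtain ⟨n, U, hU, he⟩ := exists_fac' σ hσ N p q hN
  obtain ⟨N', hN'⟩ := fac_of_ne σ h'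
  obtain ⟨n', U', hU', he'⟩ := exists_fac' σ hσ N' p' q' hN'
  have hxp : ∀ k : ℕ, ∃ s t, xx σ ^ k = mk σ s t := by
    intro k
    induction k with
    | zero => exact ⟨1, 0, by rw [pow_zero, mk_one]⟩
    | succ k ih =>
      obtain ⟨s, t, hk⟩ := ih
      exact ⟨_, _, by rw [pow_succ, hk, mul_xx σ hσ]⟩
  have key : ∀ (n n' : ℕ) (U U' : Matrix (Fin 2) (Fin 2) (PowerSeries K)), IsU σ U → IsU σ U' →
      n ≤ n' → ∃ s t, U' * xx σ ^ n' = mk σ s t * (U * xx σ ^ n) := by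
    intro n n' U U' hU hU' hn
    obtain ⟨a, b, h1, h2⟩ := hU.inv σ hσ
    obtain ⟨c, d, rfl, -⟩ := hU'
    obtain ⟨s, t, hk⟩ := hxp (n' - n)
    obtain ⟨s', t', hk'⟩ : ∃ s' t', mk σ c d * mk σ s t * mk σ a b = mk σ s' t' := by
      rw [mk_mul σ hσ, mk_mul σ hσ]
      exact ⟨_, _, rfl⟩
    refine ⟨s', t', ?_⟩
    rw [← hk', ← hk]
    have : (mk σ c d * xx σ ^ (n' - n) * mk σ a b) * (U * xx σ ^ n) =
        mk σ c d * xx σ ^ (n' - n) * ((mk σ a b * U) * xx σ ^ n) := by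
      simp only [Matrix.mul_assoc]
    rw [this, h2, Matrix.one_mul, Matrix.mul_assoc, ← pow_add, Nat.sub_add_cancel hn]
  rcases le_total n n' with hn | hn
  · left
    rw [he, he']
    exact key n n' U U' hU hU' hn
  · right
    rw [he, he']
    exact key n' n U' U hU' hU hn

/-! ### domain and Bezout -/

theorem isDomain_RO : IsDomain (RO σ hσ O) := by
  have nz : NoZeroDivisors (RO σ hσ O) := by
    constructor
    intro a b hab
    by_contra hcon
    push Not at hcon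
    obtain ⟨ha, hb⟩ := hcon
    have h1 : a.1 ≠ 0 := fun h => ha (Subtype.ext h)
    have h2 : b.1 ≠ 0 := fun h => hb (Subtype.ext h)
    rw [pq σ hσ O a] at h1
    rw [pq σ hσ O b] at h2
    have h3 := congrArg (fun z : RO σ hσ O => (z.1).det) hab
    have h4 : (a.1 * b.1).det = 0 := by
      have : (a.1 * b.1) = (a * b).1 := rfl
      rw [this, hab]
      change (0 : Matrix (Fin 2) (Fin 2) (PowerSeries K)).det = 0
      simp
    rw [Matrix.det_mul, pq σ hσ O a, pq σ hσ O b] at h4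
    exact mul_ne_zero (det_ne_zero σ hσ h1) (det_ne_zero σ hσ h2) h4
  exact NoZeroDivisors.to_isDomain _

variable (H1 : ∀ u : K, ∃ g ∈ O, ∃ h ∈ O, ∃ p ∈ O, ∃ q ∈ O, h ≠ 0 ∧ u * h = g ∧ p * h + q * g = 1)

include H1 in
theorem aux_right (a b : RO σ hσ O) (hab : ∃ s t, b.1 = a.1 * mk σ s t) :
    ∃ c : RO σ hσ O, (∃ u, a = c * u) ∧ (∃ v, b = c * v) ∧ ∃ x y, c = a * x + b * y := by
  obtain ⟨s, t, hst⟩ := hab
  obtain ⟨g, hg, h, hh, p, hp, q, hq, h0, e1, e2⟩ := H1 (constantCoeff s)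
  have hinv : mk σ (C h⁻¹) 0 * mk σ (C h) 0 = 1 := by
    rw [mk_mul σ hσ, ← mk_one σ, ← map_mul, inv_mul_cancel₀ h0]
    congr 1 <;> simp
  let P1 : RO σ hσ O := el σ hσ O (C h⁻¹ - s * C q) (-t * C q) (by
    simp only [map_sub, map_mul, constantCoeff_C]
    have : h⁻¹ - constantCoeff s * q = p := by
      field_simp
      rw [← e2, ← e1]
      ring
    rw [this]
    exact hp)
  let Q1 : RO σ hσ O := el σ hσ O (C q) 0 (by simpa using hq)
  have e3 : P1.1 + mk σ s t * Q1.1 = mk σ (C h⁻¹) 0 := by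
    change mk σ (C h⁻¹ - s * C q) (-t * C q) + mk σ s t * mk σ (C q) 0 = _
    rw [mk_mul σ hσ, mk_add]
    congr 1 <;> ring
  have e4 : (a * P1 + b * Q1).1 = a.1 * mk σ (C h⁻¹) 0 := by
    change a.1 * P1.1 + b.1 * Q1.1 = _
    rw [hst, Matrix.mul_assoc, ← Matrix.mul_add, e3]
  refine ⟨a * P1 + b * Q1, ⟨el σ hσ O (C h) 0 (by simpa using hh), ?_⟩,
    ⟨el σ hσ O (C h * s) (sg σ (C h) * t) (by
      simp only [map_mul, constantCoeff_C]
      rw [mul_comm, e1]
      exact hg), ?_⟩, P1, Q1, rfl⟩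
  · apply Subtype.ext
    change a.1 = (a * P1 + b * Q1).1 * mk σ (C h) 0
    rw [e4, Matrix.mul_assoc, hinv, Matrix.mul_one]
  · apply Subtype.ext
    change b.1 = (a * P1 + b * Q1).1 * mk σ (C h * s) (sg σ (C h) * t)
    have e5 : mk σ (C h * s) (sg σ (C h) * t) = mk σ (C h) 0 * mk σ s t := by
      rw [mk_mul σ hσ]
      congr 1 <;> simp
    rw [e4, e5, Matrix.mul_assoc, ← Matrix.mul_assoc (mk σ (C h⁻¹) 0), hinv, Matrix.one_mul, hst]

include H1 in
theorem aux_left (a b : RO σ hσ O) (hab : ∃ s t, b.1 = mk σ s t * a.1) :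
    ∃ c : RO σ hσ O, (∃ u, a = u * c) ∧ (∃ v, b = v * c) ∧ ∃ x y, c = x * a + y * b := by
  obtain ⟨s, t, hst⟩ := hab
  obtain ⟨g, hg, h, hh, p, hp, q, hq, h0, e1, e2⟩ := H1 (constantCoeff s)
  have hinv : mk σ (C h) 0 * mk σ (C h⁻¹) 0 = 1 := by
    rw [mk_mul σ hσ, ← mk_one σ, ← map_mul, mul_inv_cancel₀ h0]
    congr 1 <;> simp
  let P1 : RO σ hσ O := el σ hσ O (C h⁻¹ - C q * s) (-(sg σ (C q) * t)) (by
    simp only [map_sub, map_mul, constantCoeff_C]
    have : h⁻¹ - q * constantCoeff s = p := by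
      field_simp
      rw [← e2, ← e1]
      ring
    rw [this]
    exact hp)
  let Q1 : RO σ hσ O := el σ hσ O (C q) 0 (by simpa using hq)
  have e3 : P1.1 + Q1.1 * mk σ s t = mk σ (C h⁻¹) 0 := by
    change mk σ (C h⁻¹ - C q * s) (-(sg σ (C q) * t)) + mk σ (C q) 0 * mk σ s t = _
    rw [mk_mul σ hσ, mk_add]
    congr 1
    · simp
    · ring
  have e4 : (P1 * a + Q1 * b).1 = mk σ (C h⁻¹) 0 * a.1 := by
    change P1.1 * a.1 + Q1.1 * b.1 = _
    rw [hst, ← Matrix.mul_assoc, ← Matrix.add_mul, e3]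
  refine ⟨P1 * a + Q1 * b, ⟨el σ hσ O (C h) 0 (by simpa using hh), ?_⟩,
    ⟨el σ hσ O (s * C h) (t * C h) (by
      simp only [map_mul, constantCoeff_C]
      rw [e1]
      exact hg), ?_⟩, P1, Q1, rfl⟩
  · apply Subtype.ext
    change a.1 = mk σ (C h) 0 * (P1 * a + Q1 * b).1
    rw [e4, ← Matrix.mul_assoc, hinv, Matrix.one_mul]
  · apply Subtype.ext
    change b.1 = mk σ (s * C h) (t * C h) * (P1 * a + Q1 * b).1
    have e5 : mk σ (s * C h) (t * C h) = mk σ s t * mk σ (C h) 0 := by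
      rw [mk_mul σ hσ]
      congr 1 <;> simp
    rw [e4, e5, Matrix.mul_assoc, ← Matrix.mul_assoc (mk σ (C h) 0), hinv, Matrix.one_mul, hst]

include H1 in
theorem two_right (a b : RO σ hσ O) :
    ∃ c : RO σ hσ O, (∃ u, a = c * u) ∧ (∃ v, b = c * v) ∧ ∃ x y, c = a * x + b * y := by
  rcases chain_right σ hσ (pp σ hσ O a) (qq σ hσ O a) (pp σ hσ O b) (qq σ hσ O b) with h | h
  · rw [← pq, ← pq] at h
    exact aux_right σ hσ O H1 a b h
  · rw [← pq, ← pq] at h
    obtain ⟨c, h1, h2, x, y, h3⟩ := aux_right σ hσ O H1 b a h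
    exact ⟨c, h2, h1, y, x, by rw [h3, add_comm]⟩

include H1 in
theorem two_left (a b : RO σ hσ O) :
    ∃ c : RO σ hσ O, (∃ u, a = u * c) ∧ (∃ v, b = v * c) ∧ ∃ x y, c = x * a + y * b := by
  rcases chain_left σ hσ (pp σ hσ O a) (qq σ hσ O a) (pp σ hσ O b) (qq σ hσ O b) with h | h
  · rw [← pq, ← pq] at h
    exact aux_left σ hσ O H1 a b h
  · rw [← pq, ← pq] at h
    obtain ⟨c, h1, h2, x, y, h3⟩ := aux_left σ hσ O H1 b a h
    exact ⟨c, h2, h1, y, x, by rw [h3, add_comm]⟩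

end ring

/-! ### from two generators to finitely many -/

theorem bezout_right {R : Type} [Ring R]
    (h : ∀ a b : R, ∃ c : R, (∃ u, a = c * u) ∧ (∃ v, b = c * v) ∧ ∃ x y, c = a * x + b * y)
    (I : Submodule Rᵐᵒᵖ R) (hI : I.FG) : ∃ a : R, I = Submodule.span Rᵐᵒᵖ {a} := by
  refine Submodule.fg_induction (motive := fun I _ => ∃ a : R, I = Submodule.span Rᵐᵒᵖ {a})
    (fun x => ⟨x, rfl⟩) ?_ I hI
  rintro _ _ _ _ ⟨a, rfl⟩ ⟨b, rfl⟩
  obtain ⟨c, ⟨u, hu⟩, ⟨v, hv⟩, x, y, hc⟩ := h a b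
  refine ⟨c, le_antisymm ?_ ?_⟩
  · apply sup_le
    · rw [Submodule.span_singleton_le_iff_mem, Submodule.mem_span_singleton]
      exact ⟨MulOpposite.op u, hu.symm⟩
    · rw [Submodule.span_singleton_le_iff_mem, Submodule.mem_span_singleton]
      exact ⟨MulOpposite.op v, hv.symm⟩
  · rw [Submodule.span_singleton_le_iff_mem, hc]
    refine Submodule.add_mem_sup ?_ ?_
    · rw [Submodule.mem_span_singleton]
      exact ⟨MulOpposite.op x, rfl⟩
    · rw [Submodule.mem_span_singleton]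
      exact ⟨MulOpposite.op y, rfl⟩

theorem bezout_left {R : Type} [Ring R]
    (h : ∀ a b : R, ∃ c : R, (∃ u, a = u * c) ∧ (∃ v, b = v * c) ∧ ∃ x y, c = x * a + y * b)
    (I : Submodule R R) (hI : I.FG) : ∃ a : R, I = Submodule.span R {a} := by
  refine Submodule.fg_induction (motive := fun I _ => ∃ a : R, I = Submodule.span R {a})
    (fun x => ⟨x, rfl⟩) ?_ I hI
  rintro _ _ _ _ ⟨a, rfl⟩ ⟨b, rfl⟩
  obtain ⟨c, ⟨u, hu⟩, ⟨v, hv⟩, x, y, hc⟩ := h a b
  refine ⟨c, le_antisymm ?_ ?_⟩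
  · apply sup_le
    · rw [Submodule.span_singleton_le_iff_mem, Submodule.mem_span_singleton]
      exact ⟨u, hu.symm⟩
    · rw [Submodule.span_singleton_le_iff_mem, Submodule.mem_span_singleton]
      exact ⟨v, hv.symm⟩
  · rw [Submodule.span_singleton_le_iff_mem, hc]
    refine Submodule.add_mem_sup ?_ ?_
    · rw [Submodule.mem_span_singleton]
      exact ⟨x, rfl⟩
    · rw [Submodule.mem_span_singleton]
      exact ⟨y, rfl⟩

/-! ### RD rings -/

/-- relatively divisible submodules -/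
def RDPure {R : Type} [Ring R] {M : Type} [AddCommGroup M] [Module Rᵐᵒᵖ M]
    (N : Submodule Rᵐᵒᵖ M) : Prop :=
  ∀ (r : R) (x : M), MulOpposite.op r • x ∈ N →
    ∃ y ∈ N, MulOpposite.op r • y = MulOpposite.op r • x

/-- pure submodules -/
def IsPure {R : Type} [Ring R] {M : Type} [AddCommGroup M] [Module Rᵐᵒᵖ M]
    (N : Submodule Rᵐᵒᵖ M) : Prop :=
  ∀ (m n : ℕ) (A : Matrix (Fin m) (Fin n) R) (c : Fin n → M), (∀ j, c j ∈ N) →
    (∃ x : Fin m → M, ∀ j, ∑ i, MulOpposite.op (A i j) • x i = c j) →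
    ∃ y : Fin m → M, (∀ i, y i ∈ N) ∧ ∀ j, ∑ i, MulOpposite.op (A i j) • y i = c j

section rd
variable {R : Type} [Ring R] (B : Matrix (Fin 2) (Fin 2) R)

/-- the submodule `B R²` -/
def LL : Submodule Rᵐᵒᵖ (Fin 2 → R) where
  carrier := {v | ∃ g : Fin 2 → R, v = B *ᵥ g}
  add_mem' := by
    rintro _ _ ⟨g, rfl⟩ ⟨g', rfl⟩
    exact ⟨g + g', by rw [Matrix.mulVec_add]⟩
  zero_mem' := ⟨0, by rw [Matrix.mulVec_zero]⟩
  smul_mem' := by
    rintro c _ ⟨g, rfl⟩
    refine ⟨c • g, ?_⟩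
    rw [Matrix.mulVec_smul]

/-- the indices: elements `α` and `r` with `α r` in `B R²` -/
def Idx : Type := {p : (Fin 2 → R) × R // MulOpposite.op p.2 • p.1 ∈ LL B}

/-- the free module on the indices -/
abbrev FM := Idx B →₀ R

/-- the relations -/
def QQ : Submodule Rᵐᵒᵖ (FM B) where
  carrier := {F | ∀ l, ∃ d, F l = l.1.2 * d}
  add_mem' := by
    intro F G hF hG l
    obtain ⟨d, hd⟩ := hF l
    obtain ⟨e, he⟩ := hG l
    exact ⟨d + e, by rw [Finsupp.add_apply, hd, he, mul_add]⟩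
  zero_mem' := fun l => ⟨0, by simp⟩
  smul_mem' := by
    intro c F hF l
    obtain ⟨d, hd⟩ := hF l
    refine ⟨d * c.unop, ?_⟩
    rw [Finsupp.smul_apply, hd, ← mul_assoc]
    rfl

/-- the map to `R²` -/
noncomputable def pr : FM B →ₗ[Rᵐᵒᵖ] (Fin 2 → R) :=
  Finsupp.lsum ℕ fun l =>
    { toFun := fun a => fun i => l.1.1 i * a
      map_add' := fun a b => by funext i; simp [mul_add]
      map_smul' := fun c a => by
        funext i
        simp only [RingHom.id_apply, Pi.smul_apply]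
        change l.1.1 i * (a * c.unop) = (l.1.1 i * a) * c.unop
        rw [mul_assoc] }

theorem pr_single (l : Idx B) (a : R) (i : Fin 2) :
    pr B (Finsupp.single l a) i = l.1.1 i * a := by
  rw [pr, Finsupp.lsum_single]
  rfl

theorem pr_apply (F : FM B) (i : Fin 2) : pr B F i = ∑ l ∈ F.support, l.1.1 i * F l := by
  rw [pr, Finsupp.lsum_apply, Finsupp.sum, Finset.sum_apply]
  rfl

/-- the kernel of the map to the cokernel of `B` -/
noncomputable def KQ : Submodule Rᵐᵒᵖ (FM B) := (LL B).comap (pr B)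

theorem QQ_le : QQ B ≤ KQ B := by
  intro F hF
  have hs : F = F.sum Finsupp.single := (Finsupp.sum_single F).symm
  rw [hs, Finsupp.sum]
  refine Submodule.sum_mem _ fun l _ => ?_
  obtain ⟨d, hd⟩ := hF l
  have h1 : pr B (Finsupp.single l (F l)) = MulOpposite.op d • (MulOpposite.op l.1.2 • l.1.1) := by
    funext i
    rw [pr_single, hd, ← mul_assoc]
    rfl
  change pr B (Finsupp.single l (F l)) ∈ LL B
  rw [h1]
  exact Submodule.smul_mem _ _ l.2

/-- the submodule of the direct sum of cyclically presented modules -/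
noncomputable def NN : Submodule Rᵐᵒᵖ (FM B ⧸ QQ B) := (KQ B).map (QQ B).mkQ

theorem mem_NN {F : FM B} : (QQ B).mkQ F ∈ NN B ↔ pr B F ∈ LL B := by
  constructor
  · rintro ⟨G, hG, he⟩
    have h1 : G - F ∈ QQ B := by
      rw [← Submodule.Quotient.mk_eq_zero, ← Submodule.mkQ_apply, map_sub, he, sub_self]
    have h2 : F = G - (G - F) := by abel
    rw [h2, map_sub]
    exact Submodule.sub_mem _ hG (QQ_le B h1)
  · intro h
    exact ⟨F, h, rfl⟩

theorem rdpure_NN : RDPure (NN B) := by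
  classical
  intro r x hx
  obtain ⟨F, rfl⟩ := Submodule.mkQ_surjective (QQ B) x
  rw [← map_smul, mem_NN, map_smul] at hx
  let l : Idx B := ⟨(pr B F, r), hx⟩
  refine ⟨(QQ B).mkQ (F - Finsupp.single l 1), ?_, ?_⟩
  · rw [mem_NN, map_sub]
    have : pr B (Finsupp.single l 1) = pr B F := by
      funext i
      rw [pr_single, mul_one]
    rw [this, sub_self]
    exact Submodule.zero_mem _
  · rw [map_sub, smul_sub, sub_eq_self, ← map_smul, Submodule.mkQ_apply,
      Submodule.Quotient.mk_eq_zero]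
    intro l'
    rw [Finsupp.smul_apply]
    by_cases h : l' = l
    · subst h
      rw [Finsupp.single_eq_same]
      exact ⟨1, by simp [l]⟩
    · rw [Finsupp.single_eq_of_ne h, smul_zero]
      exact ⟨0, by simp⟩

/-- a purity datum for `B` -/
theorem data_of_pure (h : IsPure (NN B)) :
    ∃ (s : Finset (Idx B)) (β : Idx B → Fin 2 → R),
      (∀ l ∈ s, ∀ j, ∃ d, ∑ i, β l i * B i j = l.1.2 * d) ∧
      ∀ j, (fun i => ∑ l ∈ s, l.1.1 i * β l j) - Pi.single j 1 ∈ LL B := by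
  classical
  let lam : Fin 2 → Idx B := fun i => ⟨(Pi.single i 1, 0), by
    rw [MulOpposite.op_zero, zero_smul]
    exact Submodule.zero_mem _⟩
  let p : Fin 2 → FM B := fun i => Finsupp.single (lam i) 1
  have hp : ∀ i, pr B (p i) = Pi.single i 1 := by
    intro i
    funext j
    rw [pr_single, mul_one]
  obtain ⟨y, hy, hy2⟩ := h 2 2 B (fun j => (QQ B).mkQ (∑ i, MulOpposite.op (B i j) • p i)) (by
    intro j
    rw [mem_NN, map_sum]
    refine ⟨Pi.single j 1, ?_⟩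
    funext k
    rw [Finset.sum_apply]
    simp only [map_smul, hp, Pi.smul_apply]
    rw [Matrix.mulVec_single_one]
    simp only [Matrix.col_apply]
    rw [Finset.sum_eq_single k]
    · simp
    · intro i _ hi
      rw [Pi.single_eq_of_ne hi.symm, smul_zero]
    · intro h
      exact absurd (Finset.mem_univ _) h) ⟨fun i => (QQ B).mkQ (p i), by
    intro j
    rw [map_sum]
    simp only [map_smul]⟩
  choose G hG hGy using hy
  let F : Fin 2 → FM B := fun i => p i - G i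
  refine ⟨(F 0).support ∪ (F 1).support, fun l i => F i l, ?_, ?_⟩
  · intro l _ j
    have h1 : ∑ i, MulOpposite.op (B i j) • F i ∈ QQ B := by
      rw [← Submodule.Quotient.mk_eq_zero, ← Submodule.mkQ_apply, map_sum]
      have h2 := hy2 j
      rw [map_sum] at h2
      simp only [map_smul, F, map_sub, smul_sub, Finset.sum_sub_distrib] at h2 ⊢
      rw [← h2, sub_eq_zero]
      refine Finset.sum_congr rfl fun i _ => ?_
      rw [hGy]
    obtain ⟨d, hd⟩ := h1 l
    refine ⟨d, ?_⟩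
    rw [← hd, Finsupp.finsetSum_apply]
    rfl
  · intro j
    have h1 : (fun i => ∑ l ∈ (F 0).support ∪ (F 1).support, l.1.1 i * F j l) = pr B (F j) := by
      funext i
      rw [pr_apply]
      symm
      apply Finset.sum_subset
      · fin_cases j
        · exact Finset.subset_union_left
        · exact Finset.subset_union_right
      · intro l _ hl
        rw [Finsupp.notMem_support_iff.mp hl, mul_zero]
    change (fun i => ∑ l ∈ (F 0).support ∪ (F 1).support, l.1.1 i * F j l) - Pi.single j 1 ∈ LL B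
    rw [h1]
    simp only [F, map_sub, hp]
    have h2 : pr B (G j) ∈ LL B := hG j
    have h3 : (Pi.single j 1 : Fin 2 → R) - pr B (G j) - Pi.single j 1 = - pr B (G j) := by abel
    rw [h3]
    exact Submodule.neg_mem _ h2

end rd

/-! ### the ring is not RD -/

section notrd
variable {K : Type} [Field K] (σ : K →+* K) (hσ : ∀ a, σ (σ a) = a) (O : Subring K)

/-- coefficient of `x^0` -/
noncomputable def c0 (a : RO σ hσ O) : K := constantCoeff (pp σ hσ O a)
/-- coefficient of `x^1` -/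
noncomputable def c1 (a : RO σ hσ O) : K := constantCoeff (qq σ hσ O a)

theorem c0_mem (a : RO σ hσ O) : c0 σ hσ O a ∈ O := pp_mem σ hσ O a

theorem pp_mul (a b : RO σ hσ O) : pp σ hσ O (a * b) =
    pp σ hσ O a * pp σ hσ O b + X * sg σ (qq σ hσ O a) * qq σ hσ O b := by
  have h : (a * b).1 = mk σ (pp σ hσ O a) (qq σ hσ O a) * mk σ (pp σ hσ O b) (qq σ hσ O b) := by
    rw [← pq, ← pq]
    rfl
  rw [mk_mul σ hσ, pq σ hσ O (a * b)] at h
  exact (mk_inj σ h).1

theorem qq_mul (a b : RO σ hσ O) : qq σ hσ O (a * b) =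
    qq σ hσ O a * pp σ hσ O b + sg σ (pp σ hσ O a) * qq σ hσ O b := by
  have h : (a * b).1 = mk σ (pp σ hσ O a) (qq σ hσ O a) * mk σ (pp σ hσ O b) (qq σ hσ O b) := by
    rw [← pq, ← pq]
    rfl
  rw [mk_mul σ hσ, pq σ hσ O (a * b)] at h
  exact (mk_inj σ h).2

theorem cc_sg (p : PowerSeries K) : constantCoeff (sg σ p) = σ (constantCoeff p) := by
  rw [← coeff_zero_eq_constantCoeff_apply, ← coeff_zero_eq_constantCoeff_apply]
  simp [sg]

theorem c0_mul (a b : RO σ hσ O) : c0 σ hσ O (a * b) = c0 σ hσ O a * c0 σ hσ O b := by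
  rw [c0, pp_mul]
  simp [c0]

theorem c1_mul (a b : RO σ hσ O) : c1 σ hσ O (a * b) =
    c1 σ hσ O a * c0 σ hσ O b + σ (c0 σ hσ O a) * c1 σ hσ O b := by
  rw [c1, qq_mul, map_add, map_mul, map_mul, cc_sg]
  rfl

theorem c0_add (a b : RO σ hσ O) : c0 σ hσ O (a + b) = c0 σ hσ O a + c0 σ hσ O b := by
  rw [c0, c0, c0, ← map_add]
  rfl

theorem c1_add (a b : RO σ hσ O) : c1 σ hσ O (a + b) = c1 σ hσ O a + c1 σ hσ O b := by
  rw [c1, c1, c1, ← map_add]
  rfl

theorem c0_sub (a b : RO σ hσ O) : c0 σ hσ O (a - b) = c0 σ hσ O a - c0 σ hσ O b := by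
  rw [c0, c0, c0, ← map_sub]
  rfl

theorem c0_zero : c0 σ hσ O 0 = 0 := by
  have : pp σ hσ O 0 = 0 := rfl
  rw [c0, this, map_zero]

theorem c0_one : c0 σ hσ O 1 = 1 := by
  have : pp σ hσ O 1 = 1 := rfl
  rw [c0, this, map_one]

theorem c0_sum {ι : Type} (s : Finset ι) (f : ι → RO σ hσ O) :
    c0 σ hσ O (∑ i ∈ s, f i) = ∑ i ∈ s, c0 σ hσ O (f i) := by
  classical
  induction s using Finset.induction_on with
  | empty => simp [c0_zero]
  | insert a s ha ih => rw [Finset.sum_insert ha, Finset.sum_insert ha, c0_add, ih]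

/-- the elements `x a` -/
noncomputable def xa (a : K) : RO σ hσ O := el σ hσ O 0 (C a) (by simp)

theorem c0_xa (a : K) : c0 σ hσ O (xa σ hσ O a) = 0 := by
  have : pp σ hσ O (xa σ hσ O a) = 0 := rfl
  rw [c0, this, map_zero]

theorem c1_xa (a : K) : c1 σ hσ O (xa σ hσ O a) = a := by
  have : qq σ hσ O (xa σ hσ O a) = C a := rfl
  rw [c1, this, constantCoeff_C]

/-- the matrix `x A` -/
noncomputable def BB (f : K) : Matrix (Fin 2) (Fin 2) (RO σ hσ O) :=
  !![xa σ hσ O 1, xa σ hσ O f; 0, xa σ hσ O 1]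

theorem c1_zero : c1 σ hσ O 0 = 0 := by
  have : qq σ hσ O 0 = 0 := rfl
  rw [c1, this, map_zero]

variable (H2 : ∀ a ∈ O, σ a ∈ O → a ≠ 0 → a⁻¹ ∈ O ∧ σ a⁻¹ ∈ O) (f : K)
  (H3 : ∀ a ∈ O, ∀ b ∈ O, f ≠ a + σ b)

include hσ H2 H3 in
/-- the key computation in the field -/
theorem key (ρ : K) {α0 α1 β0 β1 γ0 γ1 δ0 δ1 : K} (ha0 : α0 ∈ O) (ha1 : α1 ∈ O) (hb0 : β0 ∈ O)
    (hb1 : β1 ∈ O) (hg0 : γ0 ∈ O) (hg1 : γ1 ∈ O) (hd0 : δ0 ∈ O) (hd1 : δ1 ∈ O)
    (e1 : σ β0 = ρ * δ0) (e2 : σ β0 * f + σ β1 = ρ * δ1)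
    (e3 : σ α0 * ρ = γ0 + f * γ1) (e4 : σ α1 * ρ = γ1) : α0 * β0 = 0 := by
  by_cases hρ : ρ = 0
  · rw [hρ, zero_mul] at e1
    rw [(map_eq_zero σ).mp e1, mul_zero]
  have hs : σ (γ1 * δ0) = α1 * β0 := by
    have : γ1 * δ0 = σ (α1 * β0) := by
      rw [map_mul, e1, ← e4]
      ring
    rw [this, hσ]
  have hp : σ (α0 * β0) = γ0 * δ0 + f * (γ1 * δ0) := by
    rw [map_mul, e1]
    have : σ α0 * (ρ * δ0) = (σ α0 * ρ) * δ0 := by ring
    rw [this, e3]
    ring
  have hs0 : γ1 * δ0 = 0 := by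
    by_contra hne
    obtain ⟨i1, i2⟩ := H2 (γ1 * δ0) (O.mul_mem hg1 hd0) (by
      rw [hs]; exact O.mul_mem ha1 hb0) hne
    refine H3 (-((γ1 * δ0)⁻¹ * (γ0 * δ0))) (O.neg_mem (O.mul_mem i1 (O.mul_mem hg0 hd0)))
      (σ (γ1 * δ0)⁻¹ * (α0 * β0)) (O.mul_mem i2 (O.mul_mem ha0 hb0)) ?_
    have hi : (γ1 * δ0)⁻¹ * (γ1 * δ0) = 1 := inv_mul_cancel₀ hne
    rw [map_mul, hσ, hp]
    linear_combination (-f) * hi
  rcases mul_eq_zero.mp hs0 with h | h
  · -- `γ1 = 0`
    rw [h, mul_zero, add_zero] at e3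
    rw [hs0, mul_zero, add_zero] at hp
    by_cases hp0 : γ0 * δ0 = 0
    · rw [hp0] at hp
      exact (map_eq_zero σ).mp hp
    · exfalso
      obtain ⟨i1, i2⟩ := H2 (γ0 * δ0) (O.mul_mem hg0 hd0) (by
        rw [← hp, hσ]; exact O.mul_mem ha0 hb0) hp0
      have h5 : σ (α0 * β1) = γ0 * δ1 - f * (γ0 * δ0) := by
        have e5 : σ β1 = ρ * δ1 - ρ * δ0 * f := by rw [← e2, e1]; ring
        rw [map_mul, e5]
        have : σ α0 * (ρ * δ1 - ρ * δ0 * f) = (σ α0 * ρ) * (δ1 - δ0 * f) := by ring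
        rw [this, e3]
        ring
      refine H3 ((γ0 * δ0)⁻¹ * (γ0 * δ1)) (O.mul_mem i1 (O.mul_mem hg0 hd1))
        (-(σ (γ0 * δ0)⁻¹ * (α0 * β1))) (O.neg_mem (O.mul_mem i2 (O.mul_mem ha0 hb1))) ?_
      have hi : (γ0 * δ0)⁻¹ * (γ0 * δ0) = 1 := inv_mul_cancel₀ hp0
      rw [map_neg, map_mul, hσ, h5]
      linear_combination (-f) * hi
  · -- `δ0 = 0`
    rw [h, mul_zero] at e1
    rw [(map_eq_zero σ).mp e1, mul_zero]

include H2 H3 in
theorem not_pure : ¬ IsPure (NN (BB σ hσ O f)) := by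
  intro h
  have hdom := isDomain_RO σ hσ O
  obtain ⟨s, β, h1, h2⟩ := data_of_pure _ h
  -- the entry (0,0)
  obtain ⟨g, hg⟩ := h2 0
  have h3 := congrArg (c0 σ hσ O) (congr_fun hg 0)
  rw [Pi.sub_apply, c0_sub, Pi.single_eq_same, c0_one, c0_sum] at h3
  have h4 : c0 σ hσ O ((BB σ hσ O f *ᵥ g) 0) = 0 := by
    rw [Matrix.mulVec, dotProduct, Fin.sum_univ_two, c0_add, c0_mul, c0_mul]
    simp [BB, c0_xa]
  rw [h4, sub_eq_zero] at h3
  refine one_ne_zero (α := K) ?_
  rw [← h3]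
  refine Finset.sum_eq_zero fun l hl => ?_
  rw [c0_mul]
  obtain ⟨d0, hd0⟩ := h1 l hl 0
  obtain ⟨d1, hd1⟩ := h1 l hl 1
  obtain ⟨γ, hγ⟩ := l.2
  have hγ0 := congr_fun hγ 0
  have hγ1 := congr_fun hγ 1
  rw [Fin.sum_univ_two] at hd0 hd1
  rw [Matrix.mulVec, dotProduct, Fin.sum_univ_two] at hγ0 hγ1
  change l.1.1 0 * l.1.2 = _ at hγ0
  change l.1.1 1 * l.1.2 = _ at hγ1
  have k1 := congrArg (c1 σ hσ O) hd0
  have k2 := congrArg (c1 σ hσ O) hd1
  have k3 := congrArg (c1 σ hσ O) hγ0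
  have k4 := congrArg (c1 σ hσ O) hγ1
  have k5 := congrArg (c0 σ hσ O) hγ0
  simp only [c0_add, c0_mul, c1_add, c1_mul, BB, c0_xa, c1_xa, c0_zero, c1_zero, of_apply, cons_val', cons_val_zero,
    cons_val_one, cons_val_fin_one, map_zero, map_one, mul_zero, zero_mul, add_zero, zero_add,
    mul_one, one_mul, constantCoeff_C] at k1 k2 k3 k4 k5
  by_cases hr : c0 σ hσ O l.1.2 = 0
  · rw [hr] at k1 k2 k3 k4
    simp only [map_zero, mul_zero, zero_mul, add_zero, zero_add] at k1 k2 k3 k4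
    exact key σ hσ O H2 f H3 (c1 σ hσ O l.1.2) (c0_mem _ _ _ _) (c0_mem _ _ _ (l.1.1 1))
      (c0_mem _ _ _ _) (c0_mem _ _ _ (β l 1)) (c0_mem _ _ _ (γ 0)) (c0_mem _ _ _ (γ 1))
      (c0_mem _ _ _ d0) (c0_mem _ _ _ d1) k1 k2 k3 k4
  · rcases mul_eq_zero.mp k5 with h | h
    · rw [h, zero_mul]
    · exact absurd h hr

end notrd

/-! ### the field `ℚ(T)`, the involution `T ↦ 1/T` and the subring `ℚ[T]` -/

section field
open LaurentPolynomial

abbrev LQ := LaurentPolynomial ℚ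
abbrev KQ' := FractionRing LQ

theorem inj_inv : Function.Injective
    ((algebraMap LQ KQ').comp ((LaurentPolynomial.invert (R := ℚ)).toRingEquiv.toRingHom)) := by
  refine (IsFractionRing.injective LQ KQ').comp ?_
  exact (LaurentPolynomial.invert (R := ℚ)).injective

/-- the involution -/
noncomputable def sig : KQ' →+* KQ' := IsFractionRing.lift inj_inv

theorem sig_algebraMap (p : LQ) : sig (algebraMap LQ KQ' p) =
    algebraMap LQ KQ' (LaurentPolynomial.invert p) :=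
  IsFractionRing.lift_algebraMap inj_inv p

theorem sig_sig (a : KQ') : sig (sig a) = a := by
  obtain ⟨x, y, -, rfl⟩ := IsFractionRing.div_surjective LQ a
  rw [map_div₀, map_div₀, sig_algebraMap, sig_algebraMap, sig_algebraMap, sig_algebraMap,
    LaurentPolynomial.involutive_invert, LaurentPolynomial.involutive_invert]

/-- the embedding of polynomials -/
noncomputable def PQ : Polynomial ℚ →+* KQ' := (algebraMap LQ KQ').comp Polynomial.toLaurent

theorem PQ_inj : Function.Injective PQ :=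
  (IsFractionRing.injective LQ KQ').comp Polynomial.toLaurent_injective

/-- the subring of polynomials -/
noncomputable def OQ : Subring KQ' := PQ.range

theorem H1 (u : KQ') : ∃ g ∈ OQ, ∃ h ∈ OQ, ∃ p ∈ OQ, ∃ q ∈ OQ,
    h ≠ 0 ∧ u * h = g ∧ p * h + q * g = 1 := by
  obtain ⟨a, b, hb, rfl⟩ := IsFractionRing.div_surjective LQ u
  have hb0 : b ≠ 0 := nonZeroDivisors.ne_zero hb
  obtain ⟨k, a', ha'⟩ := LaurentPolynomial.exists_T_pow a
  obtain ⟨l, b', hb'⟩ := LaurentPolynomial.exists_T_pow b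
  set G := a' * Polynomial.X ^ l with hG
  set H := b' * Polynomial.X ^ k with hH
  have hT : ∀ i j : ℕ, (T (i : ℤ) : LQ) * T (j : ℤ) = T ((i + j : ℕ) : ℤ) := by
    intro i j
    rw [← T_add]
    push_cast
    rfl
  have eG : Polynomial.toLaurent G = a * T ((k + l : ℕ) : ℤ) := by
    rw [hG, map_mul, ha', Polynomial.toLaurent_X_pow, mul_assoc, hT]
  have eH : Polynomial.toLaurent H = b * T ((k + l : ℕ) : ℤ) := by
    rw [hH, map_mul, hb', Polynomial.toLaurent_X_pow, mul_assoc, hT, add_comm l k]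
  have hTne : (T ((k + l : ℕ) : ℤ) : LQ) ≠ 0 := (isUnit_T _).ne_zero
  have hH0 : H ≠ 0 := by
    intro h
    rw [h, map_zero] at eH
    exact mul_ne_zero hb0 hTne eH.symm
  obtain ⟨H1, hH1⟩ := EuclideanDomain.gcd_dvd_left H G
  obtain ⟨G1, hG1⟩ := EuclideanDomain.gcd_dvd_right H G
  set d := EuclideanDomain.gcd H G with hd
  have hd0 : d ≠ 0 := by
    intro h
    rw [h, zero_mul] at hH1
    exact hH0 hH1
  have hbez := EuclideanDomain.gcd_eq_gcd_ab H G
  rw [← hd] at hbez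
  have h1 : H1 * EuclideanDomain.gcdA H G + G1 * EuclideanDomain.gcdB H G = 1 := by
    apply mul_left_cancel₀ hd0
    rw [mul_one]
    conv_rhs => rw [hbez]
    conv_rhs => rw [hH1, hG1]
    have e1 : EuclideanDomain.gcdA (d * H1) (d * G1) = EuclideanDomain.gcdA H G := by
      rw [← hH1, ← hG1]
    have e2 : EuclideanDomain.gcdB (d * H1) (d * G1) = EuclideanDomain.gcdB H G := by
      rw [← hH1, ← hG1]
    rw [e1, e2]
    ring
  have hH1' : H1 ≠ 0 := by
    rintro rfl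
    rw [mul_zero] at hH1
    exact hH0 hH1
  refine ⟨PQ G1, ⟨G1, rfl⟩, PQ H1, ⟨H1, rfl⟩, PQ (EuclideanDomain.gcdA H G), ⟨_, rfl⟩,
    PQ (EuclideanDomain.gcdB H G), ⟨_, rfl⟩, ?_, ?_, ?_⟩
  · intro h
    exact hH1' (PQ_inj (by rw [h, map_zero]))
  · have hb1 : algebraMap LQ KQ' b ≠ 0 := by
      intro h
      exact hb0 ((IsFractionRing.injective LQ KQ') (by rw [h, map_zero]))
    have hd1 : PQ d ≠ 0 := by
      intro h
      exact hd0 (PQ_inj (by rw [h, map_zero]))
    have hT1 : algebraMap LQ KQ' (T ((k + l : ℕ) : ℤ)) ≠ 0 := by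
      intro h
      exact hTne ((IsFractionRing.injective LQ KQ') (by rw [h, map_zero]))
    apply mul_left_cancel₀ hd1
    have e1 : PQ d * PQ H1 = algebraMap LQ KQ' b * algebraMap LQ KQ' (T ((k + l : ℕ) : ℤ)) := by
      rw [← map_mul, ← hH1, ← map_mul, ← eH]
      rfl
    have e2 : PQ d * PQ G1 = algebraMap LQ KQ' a * algebraMap LQ KQ' (T ((k + l : ℕ) : ℤ)) := by
      rw [← map_mul, ← hG1, ← map_mul, ← eG]
      rfl
    rw [e2, mul_left_comm, e1]
    field_simp
  · rw [← map_mul, ← map_mul, ← map_add, mul_comm (EuclideanDomain.gcdA H G),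
      mul_comm (EuclideanDomain.gcdB H G), h1, map_one]

theorem coeff_neg' (p : Polynomial ℚ) (n : ℤ) (hn : n < 0) : (Polynomial.toLaurent p).coeff n = 0 := by
  rw [coeff_toLaurent]
  apply Finsupp.mapDomain_of_notMem_range
  rintro ⟨k, hk⟩
  have : (k : ℤ) = n := hk
  omega

theorem coeff_nat (p : Polynomial ℚ) (n : ℕ) : (Polynomial.toLaurent p).coeff (n : ℤ) = p.coeff n := by
  rw [coeff_toLaurent]
  exact Finsupp.mapDomain_apply (Nat.castEmbedding (R := ℤ)).injective _ n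

theorem H2 (a : KQ') (ha : a ∈ OQ) (hsa : sig a ∈ OQ) (h0 : a ≠ 0) : a⁻¹ ∈ OQ ∧ sig a⁻¹ ∈ OQ := by
  obtain ⟨p, rfl⟩ := ha
  obtain ⟨q, hq⟩ := hsa
  have h1 : LaurentPolynomial.invert (Polynomial.toLaurent p) = Polynomial.toLaurent q := by
    apply IsFractionRing.injective LQ KQ'
    rw [← sig_algebraMap]
    exact hq.symm
  have h2 : p = Polynomial.C (p.coeff 0) := by
    ext n
    rcases n with _ | n
    · simp
    · rw [Polynomial.coeff_C_succ]
      have h3 := congrArg (fun z : LQ => z.coeff (-((n + 1 : ℕ) : ℤ))) h1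
      simp only [LaurentPolynomial.invert_apply, neg_neg] at h3
      rw [coeff_nat, coeff_neg' q _ (by push_cast; omega)] at h3
      exact h3
  set c := p.coeff 0 with hc
  have hc0 : c ≠ 0 := by
    intro h
    apply h0
    rw [h2, h]
    simp
  have h3 : (PQ p)⁻¹ = PQ (Polynomial.C c⁻¹) := by
    apply inv_eq_of_mul_eq_one_right
    rw [h2, ← map_mul, ← map_mul, mul_inv_cancel₀ hc0]
    simp
  have h4 : sig (PQ (Polynomial.C c⁻¹)) = PQ (Polynomial.C c⁻¹) := by
    change sig (algebraMap LQ KQ' (Polynomial.toLaurent (Polynomial.C c⁻¹))) =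
      algebraMap LQ KQ' (Polynomial.toLaurent (Polynomial.C c⁻¹))
    rw [sig_algebraMap, Polynomial.toLaurent_C, LaurentPolynomial.invert_C]
  constructor
  · rw [h3]
    exact ⟨_, rfl⟩
  · rw [h3, h4]
    exact ⟨_, rfl⟩

/-- the element `1 / (T - 1)` -/
noncomputable def ff : KQ' := (PQ (Polynomial.X - 1))⁻¹

theorem H3 (a : KQ') (ha : a ∈ OQ) (b : KQ') (hb : b ∈ OQ) : ff ≠ a + sig b := by
  intro h
  obtain ⟨p, rfl⟩ := ha
  obtain ⟨q, rfl⟩ := hb
  have hX : (Polynomial.X - 1 : Polynomial ℚ) ≠ 0 := Polynomial.X_sub_C_ne_zero 1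
  have hX' : PQ (Polynomial.X - 1) ≠ 0 := by
    intro h
    exact hX (PQ_inj (by rw [h, map_zero]))
  set z : LQ := Polynomial.toLaurent p + LaurentPolynomial.invert (Polynomial.toLaurent q) with hz
  have h1 : algebraMap LQ KQ' z = PQ p + sig (PQ q) := by
    rw [hz, map_add]
    congr 1
    exact (sig_algebraMap _).symm
  rw [← h1, ff] at h
  replace h : PQ (Polynomial.X - 1) * algebraMap LQ KQ' z = 1 := by
    rw [← h, mul_inv_cancel₀ hX']
  have h2 : Polynomial.toLaurent (Polynomial.X - 1 : Polynomial ℚ) * z = 1 := by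
    apply IsFractionRing.injective LQ KQ'
    rw [map_mul, map_one]
    exact h
  obtain ⟨n, z', hz'⟩ := LaurentPolynomial.exists_T_pow z
  have h3 : (Polynomial.X - 1) * z' = Polynomial.X ^ n := by
    apply Polynomial.toLaurent_injective
    rw [map_mul, hz', ← mul_assoc, h2, one_mul, Polynomial.toLaurent_X_pow]
  have h4 := congrArg (Polynomial.eval 1) h3
  simp at h4

end field

theorem main : ∃ (R : Type) (_ : Ring R), IsDomain R ∧
    (∀ I : Submodule Rᵐᵒᵖ R, I.FG → ∃ a : R, I = Submodule.span Rᵐᵒᵖ {a}) ∧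
    (∀ I : Submodule R R, I.FG → ∃ a : R, I = Submodule.span R {a}) ∧
    ∃ (M : Type) (_ : AddCommGroup M) (_ : Module Rᵐᵒᵖ M) (N : Submodule Rᵐᵒᵖ M),
      RDPure N ∧ ¬ IsPure N := by
  refine ⟨RO sig sig_sig OQ, inferInstance, isDomain_RO _ _ _, ?_, ?_, _, _, _,
    NN (BB sig sig_sig OQ ff), rdpure_NN _, ?_⟩
  · exact bezout_right (two_right sig sig_sig OQ H1)
  · exact bezout_left (two_left sig sig_sig OQ H1)
  · exact not_pure sig sig_sig OQ H2 ff H3

end Pool.Agent.BezRD
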